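import Pool.Agent.H40E9.GP.PP5
import Pool.Agent.H40E9.GP.WFin2

/-!
# Primes in the intervals `(x, x + (log x) ^ 2)` at the terms of generic sequences

The question asks for a prime in `(x, x + (log x) ^ 2)` for every `x > 8`. Here `x` runs through the terms
`x n = b n * a ^ k n` of a sequence, such as `a ^ n`, for almost every `a > 1`; the terms may be arbitrarily sparse, so
that results for a positive proportion of all `x` say nothing about them. The weights `w` have bounded sums over the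
dyadic blocks of `log x n`, such as `w n = 1 / n` for `a ^ n`.

* The densities `π(x n, g (x n)) log (x n) / g (x n)` have the mean value `1`, with an error of the size of the square
  root, for every regular length `g` between `lam log x` and `x ^ 0.59`.
* For `n` in a set of positive proportion `c` the interval of length `g (x n)` contains at least `1 - δ` times the
  expected number of primes; `c` depends only on `lam` and `δ`.
* For the interval of the question: the mean number of primes is `log (x n)`, as expected, and for a positive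
  proportion of the `n` it contains at least `(1 - δ) log (x n)` primes, not only one. The intervals of length
  `K * log (x n)` contain a prime for a positive proportion of the `n`, for every `K > 0`.
* The logarithmic mean of the number of primes in `(a ^ n, a ^ n + lam * log (a ^ n)]` is `lam`, for all `lam > 0`.

The proof computes second moments and covariances over the ratio `a`, from averages of the primes over intervals of
length `x ^ 0.6` and an upper bound sieve for pairs of primes.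
-/

set_option autoImplicit false

namespace Pool.Agent.Results.MP_45ff98_nt.GenericPoints

open Finset Filter Topology MeasureTheory

/-- the number `π(x, H)` of the primes in `(x, x + H]` -/
noncomputable def primesIn (x H : ℝ) : ℕ := ((Ioc ⌊x⌋₊ ⌊x + H⌋₊).filter Nat.Prime).card

/-- `π(x, H) log x / H` -/
noncomputable def density (x H : ℝ) : ℝ := primesIn x H * Real.log x / H

/-- the number of the primes `p` with `x < p < x + H` -/
noncomputable def between (x H : ℝ) : ℕ := {p : ℕ | p.Prime ∧ x < p ∧ (p : ℝ) < x + H}.ncard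

/-- the lengths `g x`, for all large `x`: `g x / log x` nondecreasing, `g x / x` nonincreasing,
`lam log x ≤ g x ≤ x ^ 0.59` -/
def Window (lam : ℝ) (g : ℝ → ℝ) : Prop :=
  ∃ x₀ : ℝ, ∀ x y : ℝ, x₀ ≤ x → x ≤ y →
    g x / Real.log x ≤ g y / Real.log y ∧ g y / y ≤ g x / x ∧ lam * Real.log x ≤ g x ∧ g x ≤ x ^ (0.59 : ℝ)

open Classical in
/-- the weights of the indices with `V ≤ s n < 2 V` have a bounded sum, uniformly in `V ≥ 1` -/
def Blocks (s w : ℕ → ℝ) (C : ℝ) : Prop :=
  ∀ V : ℝ, 1 ≤ V → ∀ N : ℕ, ∑ n ∈ (range N).filter (fun n => V ≤ s n ∧ s n < 2 * V), w n ≤ C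

/-- the exponents `k n`, the factors `b n` and the weights `w n` are admissible -/
def Adm (k b w : ℕ → ℝ) (C : ℝ) : Prop :=
  (∀ n, 1 ≤ k n) ∧ (∀ n, 1 ≤ b n) ∧ (∀ n, 0 ≤ w n) ∧ Tendsto (fun n => k n + Real.log (b n)) atTop atTop ∧
    Blocks (fun n => k n + Real.log (b n)) w C ∧ Tendsto (fun N => ∑ n ∈ range N, w n) atTop atTop

/-- the sum of `w n * D n` is the sum of the weights up to the size of its square root and two logarithms -/
def Mean (D w : ℕ → ℝ) : Prop :=
  ∃ c : ℝ, ∀ᶠ N : ℕ in atTop, |∑ n ∈ range N, w n * D n - ∑ n ∈ range N, w n| ≤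
    c * (√(∑ n ∈ range N, w n) * Real.log (∑ n ∈ range N, w n) ^ 2)

open Classical in
/-- for all large `N` the weight of the `n < N` for which `x n` has the property `P` is at least `c` times the weight
of all `n < N` -/
def Often (c : ℝ) (P : ℝ → Prop) (x w : ℕ → ℝ) : Prop :=
  ∀ᶠ N : ℕ in atTop, c * ∑ n ∈ range N, w n ≤ ∑ n ∈ (range N).filter (fun n => P (x n)), w n

theorem result :
    (∀ (lam : ℝ) (g : ℝ → ℝ), 0 < lam → Window lam g → ∀ (k b w : ℕ → ℝ) (C : ℝ), Adm k b w C →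
      ∀ᵐ a : ℝ, 1 < a → Mean (fun n => density (b n * a ^ k n) (g (b n * a ^ k n))) w) ∧
    (∀ lam δ : ℝ, 0 < lam → 0 < δ → δ ≤ 1 → ∃ c : ℝ, 0 < c ∧ ∀ g : ℝ → ℝ, Window lam g →
      ∀ (k b w : ℕ → ℝ) (C : ℝ), Adm k b w C → ∀ᵐ a : ℝ, 1 < a →
        Often c (fun x => (1 - δ) * (g x / Real.log x) ≤ primesIn x (g x)) (fun n => b n * a ^ k n) w) ∧
    (∀ (k b w : ℕ → ℝ) (C : ℝ), Adm k b w C → ∀ᵐ a : ℝ, 1 < a →
      Mean (fun n => (between (b n * a ^ k n) (Real.log (b n * a ^ k n) ^ 2) : ℝ) / Real.log (b n * a ^ k n)) w) ∧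
    (∀ δ : ℝ, 0 < δ → δ ≤ 1 → ∃ c : ℝ, 0 < c ∧ ∀ (k b w : ℕ → ℝ) (C : ℝ), Adm k b w C → ∀ᵐ a : ℝ, 1 < a →
      Often c (fun x => (1 - δ) * Real.log x ≤ between x (Real.log x ^ 2)) (fun n => b n * a ^ k n) w) ∧
    (∀ K : ℝ, 0 < K → ∃ c : ℝ, 0 < c ∧ ∀ (k b w : ℕ → ℝ) (C : ℝ), Adm k b w C → ∀ᵐ a : ℝ, 1 < a →
      Often c (fun x => ∃ p : ℕ, p.Prime ∧ x < p ∧ (p : ℝ) < x + K * Real.log x) (fun n => b n * a ^ k n) w) ∧
    (∀ᵐ a : ℝ, 1 < a → ∀ lam : ℝ, 0 < lam → Tendsto (fun N : ℕ =>
      (∑ n ∈ range N, 1 / ((n : ℝ) + 1) * (primesIn (a ^ ((n : ℝ) + 1)) (lam * Real.log (a ^ ((n : ℝ) + 1))) : ℝ)) /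
        ∑ n ∈ range N, 1 / ((n : ℝ) + 1)) atTop (𝓝 lam)) := by
  refine ⟨fun lam g hlam hg k b w C h => ?_, fun lam δ hlam hδ hδ1 => ?_, fun k b w C h => ?_, fun δ hδ hδ1 => ?_,
    fun K hK => ?_, Pool.Agent.H40E9.GP.poisson⟩
  · exact Pool.Agent.H40E9.GP.lln (Pool.Agent.H40E9.GP.window_of hlam hg) h.1 h.2.1 h.2.2.2.1 h.2.2.1 h.2.2.2.2.1
      h.2.2.2.2.2
  · obtain ⟨c, hc, hh⟩ := Pool.Agent.H40E9.GP.pp hlam hδ hδ1
    exact ⟨c, hc, fun g hg k b w C h => hh g hg k b w C h.1 h.2.1 h.2.2.1 h.2.2.2.1 h.2.2.2.2.1 h.2.2.2.2.2⟩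
  · exact Pool.Agent.H40E9.GP.mean_I h
  · exact Pool.Agent.H40E9.GP.many_I hδ hδ1
  · exact Pool.Agent.H40E9.GP.hit_K hK

end Pool.Agent.Results.MP_45ff98_nt.GenericPoints
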