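import Mathlib
import Pool.Agent.H35J.HDefs
import Pool.Agent.H35J.Haw5

set_option autoImplicit false

/-!
# Schinzel's question in the random sieve of Hawkins

The question is whether for every real `x > 8` there is a prime in `(x, x + (log x) ^ 2)`.  The random
primes of Hawkins (1957) are produced by a random version of the sieve of Eratosthenes: the chosen
integers form the least structured random sequence whose density is, as for the primes, given by
Mertens' product over the sequence itself.  We determine the number of the gaps at the borderline length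
`(log p) ^ 2 + τ log p`: almost surely, for all real `τ` at the same time, the number of chosen `p ≤ X`
with no chosen integer in `(p, p + (log p) ^ 2 + τ log p)` is asymptotic to
`exp (L - 1 / 2 - τ) log log X`, where `L` is the (random) constant in Mertens' theorem of the sieve.
In particular Schinzel's statement almost surely fails for arbitrarily large `x`.
-/

open MeasureTheory Filter
open scoped Topology

namespace Pool.Agent.Results.MP_45ff98_nt.HawkinsSieve

open Pool.Agent.H35J.Hawkins

/-- **Schinzel's question in the random sieve of Hawkins.**  Let the integers be chosen as in `Sieve`.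
There is a random variable `L` such that almost surely `1 / y n - log n → L`, where `y n` is the product
of `1 - 1 / p` over the chosen `p ≤ n`; and almost surely, for every real `τ`, the number of the chosen
`p ≤ X` with no chosen integer in `(p, p + (log p) ^ 2 + τ log p)`, divided by `log log X`, tends to
`exp (L - 1 / 2 - τ)` as `X → ∞`.  In particular almost surely for every real `τ` there are arbitrarily
large real `x` with no chosen integer in `(x, x + (log x) ^ 2 + τ log x)`. -/
theorem result {Ω : Type} [mΩ : MeasurableSpace Ω] (μ : Measure Ω) [IsProbabilityMeasure μ]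
    (ℱ : Filtration ℕ mΩ) (S : ℕ → Set Ω) (h : Sieve μ ℱ S) :
    ∃ L : Ω → ℝ,
      (∀ᵐ ω ∂μ, Tendsto (fun n : ℕ => (y S n ω)⁻¹ - Real.log n) atTop (𝓝 (L ω))) ∧
      (∀ᵐ ω ∂μ, ∀ τ : ℝ, Tendsto (fun X : ℕ =>
        (({p : ℕ | p ≤ X ∧ p ∈ chosen S ω ∧
          Free (chosen S ω) p (Real.log p ^ 2 + τ * Real.log p)}.ncard : ℕ) : ℝ) /
            Real.log (Real.log X)) atTop (𝓝 (Real.exp (L ω - 1 / 2 - τ)))) ∧
      (∀ᵐ ω ∂μ, ∀ τ X : ℝ, ∃ x : ℝ, X < x ∧
        Free (chosen S ω) x (Real.log x ^ 2 + τ * Real.log x)) := by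
  obtain ⟨L, hL⟩ := conv h
  have hrat : ∀ᵐ ω ∂μ, ∀ r : ℚ, Tendsto (fun X : ℕ => AA S r X ω / ll X) atTop
      (𝓝 (Real.exp (L ω - 1 / 2 - r))) := by
    rw [ae_all_iff]
    exact fun r => count_law h hL r
  -- monotonicity in `τ`
  have hmono : ∀ (ω : Ω) (X : ℕ) (σ τ : ℝ), σ ≤ τ → AA S τ X ω ≤ AA S σ X ω := by
    intro ω X σ τ hst
    rw [← ncard_eq, ← ncard_eq]
    have hsub : {p : ℕ | p ≤ X ∧ p ∈ chosen S ω ∧
        Free (chosen S ω) p (Real.log p ^ 2 + τ * Real.log p)} ⊆
        {p : ℕ | p ≤ X ∧ p ∈ chosen S ω ∧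
          Free (chosen S ω) p (Real.log p ^ 2 + σ * Real.log p)} := by
      rintro p ⟨h1, h2, h3⟩
      refine ⟨h1, h2, fun m hm hm2 => h3 m hm ⟨hm2.1, lt_of_lt_of_le hm2.2 ?_⟩⟩
      have h4 : 0 ≤ Real.log p := Real.log_natCast_nonneg p
      have := mul_le_mul_of_nonneg_right hst h4
      linarith
    have hfin : {p : ℕ | p ≤ X ∧ p ∈ chosen S ω ∧
        Free (chosen S ω) p (Real.log p ^ 2 + σ * Real.log p)}.Finite :=
      (Set.finite_Iic X).subset fun p hp => hp.1
    exact_mod_cast Set.ncard_le_ncard hsub hfin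
  have hall : ∀ᵐ ω ∂μ, ∀ τ : ℝ, Tendsto (fun X : ℕ => AA S τ X ω / ll X) atTop
      (𝓝 (Real.exp (L ω - 1 / 2 - τ))) := by
    filter_upwards [hrat] with ω hω τ
    have hcont : Continuous fun s : ℝ => Real.exp (L ω - 1 / 2 - s) := by fun_prop
    rw [tendsto_order]
    constructor
    · intro c hc
      have h1 : ∀ᶠ s in 𝓝[>] τ, c < Real.exp (L ω - 1 / 2 - s) :=
        (hcont.continuousAt.eventually_const_lt hc).filter_mono nhdsWithin_le_nhds
      obtain ⟨u, hu, hu2⟩ := mem_nhdsGT_iff_exists_Ioo_subset.1 h1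
      obtain ⟨r, hr1, hr2⟩ := exists_rat_btwn (show τ < u from hu)
      have h3 : c < Real.exp (L ω - 1 / 2 - r) := hu2 ⟨hr1, hr2⟩
      filter_upwards [(hω r).eventually_const_lt h3, ll_tendsto.eventually_gt_atTop 0] with X h4 h5
      exact lt_of_lt_of_le h4 (div_le_div_of_nonneg_right (hmono ω X τ r hr1.le) h5.le)
    · intro c hc
      have h1 : ∀ᶠ s in 𝓝[<] τ, Real.exp (L ω - 1 / 2 - s) < c :=
        (hcont.continuousAt.eventually_lt_const hc).filter_mono nhdsWithin_le_nhds
      obtain ⟨u, hu, hu2⟩ := mem_nhdsLT_iff_exists_Ioo_subset.1 h1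
      obtain ⟨r, hr1, hr2⟩ := exists_rat_btwn (show u < τ from hu)
      have h3 : Real.exp (L ω - 1 / 2 - r) < c := hu2 ⟨hr1, hr2⟩
      filter_upwards [(hω r).eventually_lt_const h3, ll_tendsto.eventually_gt_atTop 0] with X h4 h5
      exact lt_of_le_of_lt (div_le_div_of_nonneg_right (hmono ω X r τ hr2.le) h5.le) h4
  refine ⟨L, hL, ?_, ?_⟩
  · filter_upwards [hall] with ω hω τ
    refine (hω τ).congr fun X => ?_
    rw [ncard_eq]
    rfl
  · filter_upwards [hall] with ω hω τ X
    by_contra hno
    push Not at hno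
    -- the count is bounded
    have hbd : ∀ Y : ℕ, AA S τ Y ω ≤ ⌊|X|⌋₊ + 1 := by
      intro Y
      rw [← ncard_eq]
      have hsub : {p : ℕ | p ≤ Y ∧ p ∈ chosen S ω ∧
          Free (chosen S ω) p (Real.log p ^ 2 + τ * Real.log p)} ⊆
          ((Finset.range (⌊|X|⌋₊ + 1) : Finset ℕ) : Set ℕ) := by
        rintro p ⟨h1, h2, h3⟩
        simp only [Finset.coe_range, Set.mem_Iio, Nat.lt_succ_iff]
        by_contra h4
        push Not at h4
        have h5 : |X| < p := by
          rwa [Nat.floor_lt (abs_nonneg X)] at h4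
        exact hno p (lt_of_le_of_lt (le_abs_self X) h5) h3
      have h1 := Set.ncard_le_ncard hsub (Finset.finite_toSet _)
      rw [Set.ncard_coe_finset, Finset.card_range] at h1
      exact_mod_cast h1
    have h2 : Tendsto (fun Y : ℕ => ((⌊|X|⌋₊ : ℝ) + 1) / ll Y) atTop (𝓝 0) :=
      tendsto_const_nhds.div_atTop ll_tendsto
    have h3 := le_of_tendsto_of_tendsto (hω τ) h2 (by
      filter_upwards [ll_tendsto.eventually_gt_atTop 0] with Y hY
      exact div_le_div_of_nonneg_right (hbd Y) hY.le)
    have := Real.exp_pos (L ω - 1 / 2 - τ)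
    linarith

end Pool.Agent.Results.MP_45ff98_nt.HawkinsSieve
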