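import Pool.Agent.U26Z.RS.Frac

/-!
# Primes in the intervals `(y, y + (log y) ^ 2)` after random points near every `x`

Let `l 0, l 1, l 2, ...` be independent and uniformly distributed on `[0, 1]`. With these numbers FIXED once and for all,
almost surely, for ALL large real `x`, ALL real `Y` with `x ^ θ ≤ Y ≤ x` such that the primes have density at least `u` in
`(x, x + Y]`, and ALL `m ≥ C log x`: for at least `c m` of the points `y = x + (l j) Y`, `j < m`, there is a prime between `y`
and `y + K log y`, for any given `θ, u, K > 0`; in particular between `y` and `y + (log y) ^ 2`, which the problem asks for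
all `y > 8`. For `Y ≥ x ^ 0.584` this holds without a hypothesis on the density.

So about `log x` random intervals of a length of about `log x` suffice to find a prime in every interval
`(x, x + Y]` in which the primes have positive density, however short it is, with the same random numbers for all `x`, `Y`.

The proof: the number of the primes in windows of the length of the logarithm has a bounded exponential moment in every
interval `(x, x + x ^ θ]` (`Pool.Agent.U26Z.EX.Em2`; large sieve for the prime patterns after sieving by all primes up to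
the length of the window), so a positive proportion of the windows has a prime if the mean number is bounded below
(Cauchy's inequality); then Chernoff's bound and the union over all integers `x`, `Y`, `m`. For `Y ≥ x ^ 0.584` the density
is known from the prime number theorem in short intervals (from the starting files, `Pool.Agent.H39x.LP.Cnt`).
(The averages of the number of the primes over the random points are in `MP_31d0eb_nt.SamplingThreshold`.)
-/

set_option autoImplicit false

open Finset Filter Topology MeasureTheory ProbabilityTheory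

namespace Pool.Agent.Results.MP_45ff98_nt.SamplingAtRandomPoints

open Classical in
/-- the number of the `j < m` for which there is a prime strictly between `y` and `y + g y`, where `y = x + (l j) Y` -/
noncomputable def hits (l : ℕ → ℝ) (m : ℕ) (x Y : ℝ) (g : ℝ → ℝ) : ℕ :=
  ((range m).filter (fun j => ∃ p : ℕ, p.Prime ∧ x + l j * Y < p ∧ (p : ℝ) < x + l j * Y + g (x + l j * Y))).card

/-- the number of the primes in `(x, x + Y]` -/
noncomputable def primesIn (x Y : ℝ) : ℕ := ((Ioc ⌊x⌋₊ ⌊x + Y⌋₊).filter Nat.Prime).card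

/-- From `K log y` to `min (K log y) ((log y) ^ 2)`. -/
theorem hits_mono {K : ℝ} {l : ℕ → ℝ} (hI : ∀ j, l j ∈ Set.Icc (0 : ℝ) 1) {m : ℕ} {x Y : ℝ} (hx1 : 1 ≤ x)
    (hlog1 : 1 ≤ Real.log x) (hlog : K ≤ Real.log x) (hY0 : 0 ≤ Y) :
    hits l m x Y (fun y => K * Real.log y) ≤ hits l m x Y (fun y => min (K * Real.log y) (Real.log y ^ 2)) := by
  classical
  unfold hits
  refine card_le_card ?_
  intro j hj
  rw [mem_filter] at hj ⊢
  refine ⟨hj.1, ?_⟩
  obtain ⟨p, hp1, hp2, hp3⟩ := hj.2
  refine ⟨p, hp1, hp2, lt_of_lt_of_le hp3 ?_⟩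
  have h4 : 0 ≤ l j * Y := mul_nonneg (hI j).1 hY0
  have h5 : Real.log x ≤ Real.log (x + l j * Y) := Real.log_le_log (by linarith) (by linarith)
  have h6 : K * Real.log (x + l j * Y) ≤ Real.log (x + l j * Y) ^ 2 := by
    rw [sq]
    apply mul_le_mul_of_nonneg_right (by linarith) (by linarith)
  have h7 : K * Real.log (x + l j * Y) ≤ min (K * Real.log (x + l j * Y)) (Real.log (x + l j * Y) ^ 2) :=
    le_min le_rfl h6
  linarith

/-- Let `l 0, l 1, ...` be independent and uniformly distributed on `[0, 1]`. For all `θ, u, K > 0` there are `c > 0` and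
`C` such that almost surely, for all large real `x`, all real `Y` with `x ^ θ ≤ Y ≤ x` such that `(x, x + Y]` has at least
`u Y / log x` primes or `x ^ 0.584 ≤ Y`, and all `m ≥ C log x`, for at least `c m` of the `j < m` there is a prime strictly
between `y = x + (l j) Y` and `y + min (K log y) ((log y) ^ 2)`. -/
theorem result {Ω : Type*} [MeasurableSpace Ω] (P : Measure Ω) [IsProbabilityMeasure P] (l : ℕ → Ω → ℝ)
    (hm : ∀ j, Measurable (l j)) (hi : iIndepFun l P) (hu : ∀ j, P.map (l j) = volume.restrict (Set.Icc 0 1))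
    (θ u K : ℝ) (hθ : 0 < θ) (hu0 : 0 < u) (hK : 0 < K) :
    ∃ c C : ℝ, 0 < c ∧ 0 < C ∧ ∀ᵐ ω ∂P, ∀ᶠ x : ℝ in atTop, ∀ Y : ℝ, x ^ θ ≤ Y → Y ≤ x →
      (u * Y / Real.log x ≤ primesIn x Y ∨ x ^ (0.584 : ℝ) ≤ Y) → ∀ m : ℕ, C * Real.log x ≤ m →
        c * m ≤ hits (fun j => l j ω) m x Y (fun y => min (K * Real.log y) (Real.log y ^ 2)) := by
  have hI := Pool.Agent.U26Z.EX.ae_Icc hm hu
  obtain ⟨c₁, C₁, hc1, hC1, h1⟩ := Pool.Agent.U26Z.RS.samp2R hm hi hu hθ hu0 hK
  obtain ⟨c₂, C₂, hc2, hC2, h2⟩ := Pool.Agent.U26Z.EX.samp2 hm hi hu hK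
  refine ⟨min c₁ c₂, max C₁ C₂, lt_min hc1 hc2, lt_max_of_lt_left hC1, ?_⟩
  filter_upwards [h1, h2, hI] with ω hω1 hω2 hI
  filter_upwards [hω1, hω2, Real.tendsto_log_atTop.eventually_ge_atTop 1, Real.tendsto_log_atTop.eventually_ge_atTop K,
    eventually_gt_atTop (1 : ℝ)] with x hx1 hx2 hlog1 hlog hx3 Y h3 h4 h5 m h6
  have hlog0 : 0 < Real.log x := by linarith
  have hY : 0 < Y := lt_of_lt_of_le (by positivity) h3
  have hm0 : (0 : ℝ) ≤ m := Nat.cast_nonneg m
  have key : min c₁ c₂ * m ≤ hits (fun j => l j ω) m x Y (fun y => K * Real.log y) := by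
    rcases h5 with h5 | h5
    · refine (mul_le_mul_of_nonneg_right (min_le_left c₁ c₂) hm0).trans ?_
      unfold hits
      refine hx1 Y h3 h4 ?_ m ((mul_le_mul_of_nonneg_right (le_max_left C₁ C₂) hlog0.le).trans h6)
      rw [div_le_iff₀ hlog0] at h5
      show u ≤ (primesIn x Y : ℝ) * Real.log x / Y
      rw [le_div_iff₀ hY]
      exact h5
    · refine (mul_le_mul_of_nonneg_right (min_le_right c₁ c₂) hm0).trans ?_
      unfold hits
      exact hx2 Y h5 h4 m ((mul_le_mul_of_nonneg_right (le_max_right C₁ C₂) hlog0.le).trans h6)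
  refine key.trans ?_
  exact_mod_cast hits_mono hI hx3.le hlog1 hlog hY.le

end Pool.Agent.Results.MP_45ff98_nt.SamplingAtRandomPoints
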