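import Mathlib
import Pool.Agent.H35J.Thresh

set_option autoImplicit false

/-!
# Schinzel's question in every sequential random model of the primes

The question is whether for every real `x > 8` there is a prime in `(x, x + (log x) ^ 2)`.  We answer it
in EVERY sequential random model of the primes whose density has relative error `O(1 / log n)`: the
integers are decided one after the other, only integers coprime to a fixed `Q` can be chosen, and the
conditional probability of choosing `n + 1` (coprime to `Q`) given the past is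
`(Q / φ(Q)) / log n * (1 + O(1 / log n))`.  No independence is assumed.  Almost surely the statement fails
for arbitrarily large `x`; the exact order of the length for which it becomes true for all large `x` is
`(log x) ^ 2 + c log x logloglog x` with `c > 1`, and there is a zero-one law for all lengths.
-/

open MeasureTheory Filter
open scoped Topology

namespace Pool.Agent.Results.MP_45ff98_nt.SequentialModels

/-- the set of the integers chosen at `ω` -/
def chosen {Ω : Type} (S : ℕ → Set Ω) (ω : Ω) : Set ℕ := {n | ω ∈ S n}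

/-- the open interval `(x, x + g)` contains no element of `A` -/
def Free (A : Set ℕ) (x g : ℝ) : Prop := ∀ m : ℕ, m ∈ A → ¬ (x < m ∧ m < x + g)

/-- A sequential random model of the primes: `S n` is the event that `n` is chosen.  It is decided at
time `n`, only integers coprime to `Q` can be chosen, and the conditional probability of choosing `n + 1`
(coprime to `Q`) given the past differs from `(Q / φ(Q)) / log n` by a relative error at most
`K / log n`, for all large `n`. -/
structure Model {Ω : Type} [mΩ : MeasurableSpace Ω] (μ : Measure Ω) (ℱ : Filtration ℕ mΩ)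
    (S : ℕ → Set Ω) (Q : ℕ) (K : ℝ) : Prop where
  adapted : ∀ n, MeasurableSet[ℱ n] (S n)
  sieve : ∀ n, ¬ n.Coprime Q → S n = ∅
  density : ∀ᶠ n : ℕ in atTop, (n + 1).Coprime Q → ∀ᵐ ω ∂μ,
    |(μ[(S (n + 1)).indicator (fun _ => (1 : ℝ)) | ℱ n]) ω *
      ((Q.totient : ℝ) / Q * Real.log n) - 1| ≤ K / Real.log n

/-- Cramér's model (independent choices, modulo `Q`) is an instance. -/
theorem cramer {Ω : Type} [mΩ : MeasurableSpace Ω] (μ : Measure Ω) [IsProbabilityMeasure μ]
    (S : ℕ → Set Ω) (hSm : ∀ n, MeasurableSet (S n)) (hind : ProbabilityTheory.iIndepSet S μ)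
    (Q : ℕ) (hQ : 0 < Q) (hsieve : ∀ n, ¬ n.Coprime Q → S n = ∅)
    (hp : ∀ᶠ n : ℕ in atTop, n.Coprime Q → μ.real (S n) = (Q : ℝ) / Q.totient / Real.log n) :
    Model μ (filtrationOfSet hSm) S Q 1 := by
  refine ⟨fun n => measurableSet_filtrationOfSet' hSm n, hsieve, ?_⟩
  filter_upwards [(tendsto_add_atTop_nat 1).eventually hp,
    Pool.Agent.H35J.log_tendsto.eventually_ge_atTop 1, eventually_ge_atTop 1] with n h1 h2 h3 hcop
  have h4 := hind.condExp_indicator_filtrationOfSet_ae_eq hSm n.lt_succ_self
  filter_upwards [h4] with ω hω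
  have h5 : (μ[(S (n + 1)).indicator (fun _ => (1 : ℝ)) | filtrationOfSet hSm n]) ω =
      μ.real (S (n + 1)) := hω
  rw [h5, h1 hcop]
  have hQ0 : (0 : ℝ) < Q := by exact_mod_cast hQ
  have hφ0 : (0 : ℝ) < Q.totient := by exact_mod_cast Nat.totient_pos.2 hQ
  have hn0 : (0 : ℝ) < n := by exact_mod_cast h3
  have hn1 : (n : ℝ) ≤ ((n + 1 : ℕ) : ℝ) := by exact_mod_cast Nat.le_succ n
  have hl : 0 < Real.log n := by linarith
  have hl1 : Real.log n ≤ Real.log ((n + 1 : ℕ) : ℝ) := Real.log_le_log hn0 hn1
  have hl2 : 0 < Real.log ((n + 1 : ℕ) : ℝ) := by linarith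
  have e1 : (Q : ℝ) / Q.totient / Real.log ((n + 1 : ℕ) : ℝ) * ((Q.totient : ℝ) / Q * Real.log n) - 1 =
      -((Real.log ((n + 1 : ℕ) : ℝ) - Real.log n) / Real.log ((n + 1 : ℕ) : ℝ)) := by
    field_simp
    ring
  rw [e1, abs_neg, abs_of_nonneg (div_nonneg (by linarith) hl2.le)]
  have e2 : Real.log ((n + 1 : ℕ) : ℝ) - Real.log n ≤ 1 := by
    have := Pool.Agent.H35J.log_ratio_le hn0 hn1
    have h6 : (((n + 1 : ℕ) : ℝ) - n) / n ≤ 1 := by
      rw [div_le_one hn0]
      push_cast
      have : (1 : ℝ) ≤ n := by exact_mod_cast h3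
      linarith
    linarith
  exact div_le_div₀ (by norm_num) e2 hl hl1

/-- **Schinzel's question in every sequential random model.**  Let the integers be chosen as in `Model`.
(1) (Zero-one law) Let `t` be any function with `- log n ≤ t(n) ≤ C log n` for all large `n`.  If the sum
of `exp (- t(n)) / (n log n)` over the `n` coprime to `Q` converges, then almost surely only finitely many
chosen `n` have no chosen integer in `(n, n + (log n) ^ 2 + t(n) log n)`; if it diverges, then almost
surely there are infinitely many such chosen `n`.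
(2) (Threshold) For `c ≤ 1`, almost surely there are arbitrarily large real `x` with no chosen integer in
`(x, x + (log x) ^ 2 + c log x logloglog x)`; in particular (`c = 0`) Schinzel's statement fails for
arbitrarily large `x`.  For `c > 1`, almost surely `(x, x + (log x) ^ 2 + c log x logloglog x)` contains a
chosen integer for all large real `x`. -/
theorem result {Ω : Type} [mΩ : MeasurableSpace Ω] (μ : Measure Ω) [IsProbabilityMeasure μ]
    (ℱ : Filtration ℕ mΩ) (S : ℕ → Set Ω) (Q : ℕ) (hQ : 0 < Q) (K : ℝ) (h : Model μ ℱ S Q K) :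
    (∀ (t : ℕ → ℝ) (C : ℝ),
      (∀ᶠ n : ℕ in atTop, -Real.log n ≤ t n ∧ t n ≤ C * Real.log n) →
      (Summable (fun n : ℕ => if n.Coprime Q then Real.exp (-t n) / (n * Real.log n) else 0) →
        ∀ᵐ ω ∂μ, {n : ℕ | n ∈ chosen S ω ∧
          Free (chosen S ω) n (Real.log n ^ 2 + t n * Real.log n)}.Finite) ∧
      (¬ Summable (fun n : ℕ => if n.Coprime Q then Real.exp (-t n) / (n * Real.log n) else 0) →
        ∀ᵐ ω ∂μ, {n : ℕ | n ∈ chosen S ω ∧
          Free (chosen S ω) n (Real.log n ^ 2 + t n * Real.log n)}.Infinite)) ∧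
    (∀ c : ℝ,
      (c ≤ 1 → ∀ᵐ ω ∂μ, ∀ X : ℝ, ∃ x : ℝ, X < x ∧
        Free (chosen S ω) x
          (Real.log x ^ 2 + c * Real.log x * Real.log (Real.log (Real.log x)))) ∧
      (1 < c → ∀ᵐ ω ∂μ, ∃ X : ℝ, ∀ x : ℝ, X < x →
        ¬ Free (chosen S ω) x
          (Real.log x ^ 2 + c * Real.log x * Real.log (Real.log (Real.log x))))) := by
  have hev : ∀ (g : ℝ) (n : ℕ) (ω : Ω), ω ∈ Pool.Agent.H35J.ev S g n ↔
      (n ∈ chosen S ω ∧ Free (chosen S ω) n g) := by
    intro g n ω
    rw [Pool.Agent.H35J.mem_ev]
    unfold chosen Free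
    simp only [Set.mem_ofPred_eq]
    constructor
    · rintro ⟨h1, h2⟩
      exact ⟨h1, fun m hm hm2 => h2 m (by exact_mod_cast hm2.1) hm2.2 hm⟩
    · rintro ⟨h1, h2⟩
      exact ⟨h1, fun m hm hm2 hm3 => h2 m hm3 ⟨by exact_mod_cast hm, hm2⟩⟩
  have hd : ∀ᶠ n : ℕ in atTop, (n + 1).Coprime Q → ∀ᵐ ω ∂μ,
      |(μ[(S (n + 1)).indicator (fun _ => (1 : ℝ)) | ℱ n]) ω *
        ((Q.totient : ℝ) / Q * Real.log n) - 1| ≤ |K| / Real.log n := by
    filter_upwards [h.density, Pool.Agent.H35J.log_tendsto.eventually_ge_atTop 1] with n h1 h2 hc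
    filter_upwards [h1 hc] with ω hω
    exact hω.trans (div_le_div_of_nonneg_right (le_abs_self K) (by linarith))
  have hlaw : ∀ (t : ℕ → ℝ) (C : ℝ),
      (∀ᶠ n : ℕ in atTop, -Real.log n ≤ t n ∧ t n ≤ C * Real.log n) →
      (¬ Summable (Pool.Agent.H35J.wt Q t) → ∀ᵐ ω ∂μ, {n : ℕ | n ∈ chosen S ω ∧
          Free (chosen S ω) n (Real.log n ^ 2 + t n * Real.log n)}.Infinite) ∧
      (Summable (Pool.Agent.H35J.wt Q t) → ∀ᵐ ω ∂μ, {n : ℕ | n ∈ chosen S ω ∧
          Free (chosen S ω) n (Real.log n ^ 2 + t n * Real.log n)}.Finite) := by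
    intro t C ht
    have ht' : ∀ᶠ n : ℕ in atTop, -Real.log n ≤ t n ∧ t n ≤ |C| * Real.log n := by
      filter_upwards [ht, Pool.Agent.H35J.log_tendsto.eventually_ge_atTop 1] with n h1 h2
      exact ⟨h1.1, h1.2.trans (mul_le_mul_of_nonneg_right (le_abs_self C) (by linarith))⟩
    obtain ⟨l1, l2⟩ := Pool.Agent.H35J.law (μ := μ) (ℱ := ℱ) (S := S) hQ (abs_nonneg K)
      (abs_nonneg C) h.adapted h.sieve hd t ht'
    constructor
    · intro hs
      filter_upwards [l1 hs] with ω hω
      rw [Nat.frequently_atTop_iff_infinite] at hω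
      simpa only [hev] using hω
    · intro hs
      filter_upwards [l2 hs] with ω hω
      rw [← Set.not_infinite, ← Nat.frequently_atTop_iff_infinite, not_frequently]
      filter_upwards [hω] with n hn
      rwa [hev] at hn
  refine ⟨?_, ?_⟩
  · intro t C ht
    exact ⟨(hlaw t C ht).2, (hlaw t C ht).1⟩
  · -- the infinitude of the chosen integers and of the failures
    have hfail : ∀ c : ℝ, c ≤ 1 → ∀ᵐ ω ∂μ, {n : ℕ | n ∈ chosen S ω ∧
        Free (chosen S ω) n (Real.log n ^ 2 +
          c * Real.log (Real.log (Real.log n)) * Real.log n)}.Infinite := by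
      intro c hc
      exact (hlaw (fun n => c * Real.log (Real.log (Real.log n))) |c|
        (Pool.Agent.H35J.t_bounds c)).1 (Pool.Agent.H35J.not_summable hQ hc)
    intro c
    constructor
    · intro hc
      filter_upwards [hfail c hc] with ω hω X
      obtain ⟨n, hn, hn2⟩ := hω.exists_gt ⌈|X|⌉₊
      refine ⟨(n : ℝ), ?_, ?_⟩
      · have h1 : |X| ≤ ⌈|X|⌉₊ := Nat.le_ceil _
        have h2 : (⌈|X|⌉₊ : ℝ) < n := by exact_mod_cast hn2
        linarith [le_abs_self X]
      · have := hn.2
        rwa [show c * Real.log (Real.log (Real.log (n : ℝ))) * Real.log n =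
          c * Real.log n * Real.log (Real.log (Real.log (n : ℝ))) by ring] at this
    · intro hc
      have hfin := (hlaw (fun n => c * Real.log (Real.log (Real.log n))) |c|
        (Pool.Agent.H35J.t_bounds c)).2 (Pool.Agent.H35J.summable_wt Q hc)
      filter_upwards [hfin, hfail 0 (by norm_num)] with ω hω hinf
      classical
      -- bounds
      obtain ⟨n0, hn0⟩ := eventually_atTop.1
        ((Pool.Agent.H35J.log_tendsto.eventually_ge_atTop 1).and
          ((Pool.Agent.H35J.loglog_tendsto.eventually_ge_atTop 1).and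
            (Pool.Agent.H35J.logloglog_tendsto.eventually_ge_atTop 0)))
      obtain ⟨B, hB⟩ := hω.bddAbove
      obtain ⟨q, hq, hq2⟩ := hinf.exists_gt (max B (max n0 1))
      refine ⟨(q : ℝ), fun x hx hfree => ?_⟩
      -- the largest chosen integer `≤ x`
      set P : ℕ := Nat.findGreatest (fun m => m ∈ chosen S ω) ⌊x⌋₊ with hP
      have hx0 : 0 ≤ x := le_trans (Nat.cast_nonneg q) hx.le
      have hqx : q ≤ ⌊x⌋₊ := Nat.le_floor hx.le
      have hPmem : P ∈ chosen S ω := Nat.findGreatest_spec (P := fun m => m ∈ chosen S ω) hqx hq.1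
      have hqP : q ≤ P := Nat.le_findGreatest hqx hq.1
      have hPx : (P : ℝ) ≤ x := by
        have h1 : P ≤ ⌊x⌋₊ := Nat.findGreatest_le _
        exact le_trans (by exact_mod_cast h1) (Nat.floor_le hx0)
      have hPmax : ∀ m : ℕ, m ∈ chosen S ω → (m : ℝ) ≤ x → m ≤ P := by
        intro m hm hmx
        exact Nat.le_findGreatest (Nat.le_floor hmx) hm
      have hqn : n0 ≤ q ∧ 1 ≤ q ∧ B < q := by
        have h1 := le_max_left B (max n0 1)
        have h2 := le_max_right B (max n0 1)
        have h3 := le_max_left n0 1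
        have h4 := le_max_right n0 1
        omega
      obtain ⟨p1, p2, p3⟩ := hn0 P (by omega)
      have hP0 : (0 : ℝ) < P := by exact_mod_cast (by omega : 0 < P)
      -- monotonicity
      have m1 : Real.log P ≤ Real.log x := Real.log_le_log hP0 hPx
      have m2 : Real.log (Real.log P) ≤ Real.log (Real.log x) := Real.log_le_log (by linarith) m1
      have m3 : Real.log (Real.log (Real.log P)) ≤ Real.log (Real.log (Real.log x)) :=
        Real.log_le_log (by linarith) m2
      have hmono : Real.log P ^ 2 + c * Real.log (Real.log (Real.log P)) * Real.log P ≤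
          Real.log x ^ 2 + c * Real.log x * Real.log (Real.log (Real.log x)) := by
        have a1 : Real.log P ^ 2 ≤ Real.log x ^ 2 := pow_le_pow_left₀ (by linarith) m1 2
        have a2 : Real.log P * Real.log (Real.log (Real.log P)) ≤
            Real.log x * Real.log (Real.log (Real.log x)) :=
          mul_le_mul m1 m3 p3 (by linarith)
        have a3 := mul_le_mul_of_nonneg_left a2 (by linarith : 0 ≤ c)
        calc Real.log P ^ 2 + c * Real.log (Real.log (Real.log P)) * Real.log P
            = Real.log P ^ 2 + c * (Real.log P * Real.log (Real.log (Real.log P))) := by ring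
          _ ≤ Real.log x ^ 2 + c * (Real.log x * Real.log (Real.log (Real.log x))) := by linarith
          _ = _ := by ring
      have hbad : P ∈ {n : ℕ | n ∈ chosen S ω ∧ Free (chosen S ω) n
          (Real.log n ^ 2 + c * Real.log (Real.log (Real.log n)) * Real.log n)} := by
        refine ⟨hPmem, fun m hm hm2 => hfree m hm ⟨?_, ?_⟩⟩
        · by_contra hmx
          push Not at hmx
          have h1 := hPmax m hm hmx
          have h2 : P < m := by exact_mod_cast hm2.1
          omega
        · linarith [hm2.2]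
      have := hB hbad
      omega

end Pool.Agent.Results.MP_45ff98_nt.SequentialModels
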